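import Pool.Agent.Lib.MP_94c361_co_U.Expd

/-!
# MP_94c361_co: the upper bound for the second moment over all pairs of permutations
-/

set_option autoImplicit false

open scoped BigOperators
open Pool.Agent.MP94h MeasureTheory

namespace Pool.Agent.MP94u

section

variable {μ : Measure ℂ} [IsProbabilityMeasure μ]
  (hI : ∀ a b : ℕ, Integrable (fun z : ℂ => z ^ a * ((starRingEnd ℂ) z) ^ b) μ)
  (hM : ∀ a b : ℕ, ∫ z : ℂ, z ^ a * ((starRingEnd ℂ) z) ^ b ∂μ =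
      if a = b then (a.factorial : ℂ) else 0)

include hI hM in
theorem sum_eq_integral {n : ℕ} (hcp : ∀ T S : Fin n → Bool × Bool,
    (Finset.univ.filter (fun σ : Equiv.Perm (Fin n) => ∀ u, S (σ u) = T u)).card =
      if (∀ c, cnt T c = cnt S c) then ∏ c, (cnt T c).factorial else 0) :
    ((∑ σ : Equiv.Perm (Fin n), ∑ τ : Equiv.Perm (Fin n), (hc σ τ) ^ 2 : ℤ) : ℂ) =
      ∫ p, (loc p.1 p.2) ^ n ∂((Measure.pi (fun _ : Bool × Bool => μ)).prod
        (Measure.pi (fun _ : Bool × Bool => μ))) := by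
  simp only [loc_pow]
  rw [sum_hc_sq, integral_finsetSum]
  · refine Finset.sum_congr rfl fun κ _ => ?_
    rw [integral_const_mul, integral_prod_mul, mono_integral hM hcp, mono_integral hM hcp]
  · intro κ _
    exact (Integrable.mul_prod (mono_int hI _ _) (mono_int hI _ _)).const_mul _

theorem norm_pow_eq {n : ℕ} (z : Bool × Bool → ℂ) :
    (((∑ c, ‖z c‖ ^ 2) ^ n : ℝ) : ℂ) = ∑ T : Fin n → Bool × Bool, mono T T z := by
  have h1 : (((∑ c, ‖z c‖ ^ 2) ^ n : ℝ) : ℂ) =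
      ∏ _u : Fin n, ∑ c : Bool × Bool, (z c * (starRingEnd ℂ) (z c)) := by
    rw [Finset.prod_const, Finset.card_univ, Fintype.card_fin]
    push_cast
    congr 1
    refine Finset.sum_congr rfl fun c _ => ?_
    rw [Complex.mul_conj, Complex.normSq_eq_norm_sq]
    push_cast
    rfl
  rw [h1, Finset.prod_univ_sum, Fintype.piFinset_univ]
  refine Finset.sum_congr rfl fun T _ => ?_
  rw [Finset.prod_mul_distrib]
  rfl

include hI in
theorem pow_int (n : ℕ) : Integrable (fun z : Bool × Bool → ℂ => (∑ c, ‖z c‖ ^ 2) ^ n)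
    (Measure.pi (fun _ : Bool × Bool => μ)) := by
  have h1 : Integrable (fun z : Bool × Bool → ℂ => ∑ T : Fin n → Bool × Bool, mono T T z)
      (Measure.pi (fun _ : Bool × Bool => μ)) :=
    integrable_finsetSum _ fun T _ => mono_int hI T T
  have h2 := h1.re
  refine h2.congr (Filter.Eventually.of_forall fun z => ?_)
  show (RCLike.re (∑ T : Fin n → Bool × Bool, mono T T z) : ℝ) = _
  rw [← norm_pow_eq]
  exact Complex.ofReal_re _

include hI hM in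
theorem pow_integral {n : ℕ} (hcp : ∀ T S : Fin n → Bool × Bool,
    (Finset.univ.filter (fun σ : Equiv.Perm (Fin n) => ∀ u, S (σ u) = T u)).card =
      if (∀ c, cnt T c = cnt S c) then ∏ c, (cnt T c).factorial else 0) :
    ∫ z : Bool × Bool → ℂ, (∑ c, ‖z c‖ ^ 2) ^ n ∂(Measure.pi (fun _ : Bool × Bool => μ)) =
      ((∑ T : Fin n → Bool × Bool, ∏ c, (cnt T c).factorial : ℕ) : ℝ) := by
  have h1 : ((∫ z : Bool × Bool → ℂ, (∑ c, ‖z c‖ ^ 2) ^ n
      ∂(Measure.pi (fun _ : Bool × Bool => μ)) : ℝ) : ℂ) =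
      (((∑ T : Fin n → Bool × Bool, ∏ c, (cnt T c).factorial : ℕ) : ℝ) : ℂ) := by
    rw [← integral_complex_ofReal]
    simp only [norm_pow_eq]
    rw [integral_finsetSum _ fun T _ => mono_int hI T T]
    push_cast
    refine Finset.sum_congr rfl fun T _ => ?_
    rw [mono_integral hM hcp, hcp, if_pos (fun _ => rfl)]
    push_cast
    rfl
  exact_mod_cast h1

include hI hM in
theorem upper_all {n : ℕ} (hcp : ∀ T S : Fin n → Bool × Bool,
    (Finset.univ.filter (fun σ : Equiv.Perm (Fin n) => ∀ u, S (σ u) = T u)).card =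
      if (∀ c, cnt T c = cnt S c) then ∏ c, (cnt T c).factorial else 0)
    (hloc : ∀ z w : Bool × Bool → ℂ,
      ‖loc z w‖ ≤ 3 / 2 * (∑ c, ‖z c‖ ^ 2) * (∑ c, ‖w c‖ ^ 2))
    (hsf : ∑ T : Fin n → Bool × Bool, ∏ c, (cnt T c).factorial ≤ n.factorial * (n + 1) ^ 4) :
    ((∑ σ : Equiv.Perm (Fin n), ∑ τ : Equiv.Perm (Fin n), (hc σ τ) ^ 2 : ℤ) : ℝ) ≤
      (3 / 2) ^ n * ((n.factorial : ℝ) * (n + 1) ^ 4) ^ 2 := by
  set P := Measure.pi (fun _ : Bool × Bool => μ) with hP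
  have h1 := sum_eq_integral hI hM hcp
  have h0 : (0 : ℝ) ≤ ((∑ σ : Equiv.Perm (Fin n), ∑ τ : Equiv.Perm (Fin n),
      (hc σ τ) ^ 2 : ℤ) : ℝ) :=
    Int.cast_nonneg (Finset.sum_nonneg fun σ _ => Finset.sum_nonneg fun τ _ => sq_nonneg _)
  have h2 : ((∑ σ : Equiv.Perm (Fin n), ∑ τ : Equiv.Perm (Fin n), (hc σ τ) ^ 2 : ℤ) : ℝ) =
      ‖((∑ σ : Equiv.Perm (Fin n), ∑ τ : Equiv.Perm (Fin n), (hc σ τ) ^ 2 : ℤ) : ℂ)‖ := by
    rw [Complex.norm_intCast, abs_of_nonneg h0]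
  rw [h2, h1]
  have h3 : Integrable (fun p : (Bool × Bool → ℂ) × (Bool × Bool → ℂ) =>
      (3 / 2 : ℝ) ^ n * ((∑ c, ‖p.1 c‖ ^ 2) ^ n * (∑ c, ‖p.2 c‖ ^ 2) ^ n)) (P.prod P) :=
    (Integrable.mul_prod (pow_int hI n) (pow_int hI n)).const_mul _
  have h4 : ∀ p : (Bool × Bool → ℂ) × (Bool × Bool → ℂ), ‖(loc p.1 p.2) ^ n‖ ≤
      (3 / 2 : ℝ) ^ n * ((∑ c, ‖p.1 c‖ ^ 2) ^ n * (∑ c, ‖p.2 c‖ ^ 2) ^ n) := by
    intro p
    rw [norm_pow, ← mul_pow, ← mul_pow, ← mul_assoc]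
    exact pow_le_pow_left₀ (norm_nonneg _) (hloc p.1 p.2) n
  refine (norm_integral_le_of_norm_le h3 (Filter.Eventually.of_forall h4)).trans ?_
  rw [integral_const_mul, integral_prod_mul (fun z : Bool × Bool → ℂ => (∑ c, ‖z c‖ ^ 2) ^ n)
    (fun z : Bool × Bool → ℂ => (∑ c, ‖z c‖ ^ 2) ^ n), pow_integral hI hM hcp]
  refine mul_le_mul_of_nonneg_left ?_ (by positivity)
  have h5 : ((∑ T : Fin n → Bool × Bool, ∏ c, (cnt T c).factorial : ℕ) : ℝ) ≤
      (n.factorial : ℝ) * (n + 1) ^ 4 := by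
    exact_mod_cast hsf
  rw [sq]
  exact mul_le_mul h5 h5 (Nat.cast_nonneg _) (by positivity)

end

end Pool.Agent.MP94u
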