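import Pool.Agent.Lib.MP_94c361_co_U.Defs

/-!
# MP_94c361_co: the sum of the products of factorials of the counts
-/

set_option autoImplicit false

open scoped BigOperators

namespace Pool.Agent.MP94u

theorem sum_fact (n : ℕ) (hcp : ∀ T S : Fin n → Bool × Bool,
      (Finset.univ.filter (fun σ : Equiv.Perm (Fin n) => ∀ u, S (σ u) = T u)).card =
        if (∀ c, cnt T c = cnt S c) then ∏ c, (cnt T c).factorial else 0) :
    ∑ T : Fin n → Bool × Bool, ∏ c, (cnt T c).factorial ≤ n.factorial * (n + 1) ^ 4 := by
  classical
  have hle : ∀ (T : Fin n → Bool × Bool) (c : Bool × Bool), cnt T c < n + 1 := by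
    intro T c
    have h := Finset.card_le_univ (Finset.univ.filter (fun u => T u = c))
    rw [Fintype.card_fin] at h
    exact Nat.lt_succ_of_le h
  let f : (Fin n → Bool × Bool) → (Bool × Bool → Fin (n + 1)) := fun T c => ⟨cnt T c, hle T c⟩
  have hf : ∀ T S : Fin n → Bool × Bool, f S = f T ↔ ∀ c, cnt T c = cnt S c := by
    intro T S
    constructor
    · intro h c
      have h1 := congrFun h c
      simp only [f, Fin.mk.injEq] at h1
      exact h1.symm
    · intro h
      funext c
      simp only [f, Fin.mk.injEq]
      exact (h c).symm
  -- the labellings with given counts contribute `n!` together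
  have hfib : ∀ T : Fin n → Bool × Bool,
      ∑ S ∈ Finset.univ.filter (fun S => f S = f T), ∏ c, (cnt S c).factorial = n.factorial := by
    intro T
    have h1 : ∑ S ∈ Finset.univ.filter (fun S => f S = f T), ∏ c, (cnt S c).factorial =
        ∑ S : Fin n → Bool × Bool,
          (Finset.univ.filter (fun σ : Equiv.Perm (Fin n) => ∀ u, S (σ u) = T u)).card := by
      rw [Finset.sum_filter]
      apply Finset.sum_congr rfl
      intro S _
      rw [hcp T S]
      by_cases h : f S = f T
      · rw [if_pos h, if_pos ((hf T S).1 h)]
        apply Finset.prod_congr rfl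
        intro c _
        rw [(hf T S).1 h c]
      · rw [if_neg h, if_neg (fun h' => h ((hf T S).2 h'))]
    rw [h1]
    have h2 := Finset.sum_card_bipartiteAbove_eq_sum_card_bipartiteBelow
      (s := (Finset.univ : Finset (Fin n → Bool × Bool)))
      (t := (Finset.univ : Finset (Equiv.Perm (Fin n))))
      (fun (S : Fin n → Bool × Bool) (σ : Equiv.Perm (Fin n)) => ∀ u, S (σ u) = T u)
    simp only [Finset.bipartiteAbove, Finset.bipartiteBelow] at h2
    rw [h2]
    have h3 : ∀ σ : Equiv.Perm (Fin n),
        (Finset.univ.filter (fun S : Fin n → Bool × Bool => ∀ u, S (σ u) = T u)).card = 1 := by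
      intro σ
      rw [Finset.card_eq_one]
      refine ⟨fun u => T (σ.symm u), ?_⟩
      ext S
      simp only [Finset.mem_filter, Finset.mem_univ, true_and, Finset.mem_singleton]
      constructor
      · intro h
        funext u
        have h4 := h (σ.symm u)
        rw [Equiv.apply_symm_apply] at h4
        exact h4
      · rintro rfl u
        change T (σ.symm (σ u)) = T u
        rw [Equiv.symm_apply_apply]
    rw [Finset.sum_congr rfl (fun σ _ => h3 σ), Finset.sum_const, smul_eq_mul, mul_one,
      Finset.card_univ, Fintype.card_perm, Fintype.card_fin]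
  rw [← Finset.sum_fiberwise (Finset.univ : Finset (Fin n → Bool × Bool)) f]
  calc ∑ m : (Bool × Bool → Fin (n + 1)),
        ∑ S ∈ Finset.univ.filter (fun S => f S = m), ∏ c, (cnt S c).factorial
      ≤ ∑ _m : (Bool × Bool → Fin (n + 1)), n.factorial := by
        apply Finset.sum_le_sum
        intro m _
        rcases (Finset.univ.filter
          (fun S : Fin n → Bool × Bool => f S = m)).eq_empty_or_nonempty with h | ⟨T, hT⟩
        · rw [h, Finset.sum_empty]
          exact Nat.zero_le _
        · simp only [Finset.mem_filter, Finset.mem_univ, true_and] at hT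
          rw [← hT]
          exact le_of_eq (hfib T)
    _ = n.factorial * (n + 1) ^ 4 := by
        rw [Finset.sum_const, smul_eq_mul, Finset.card_univ, Fintype.card_fun, Fintype.card_fin,
          mul_comm]
        rfl

end Pool.Agent.MP94u
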