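import Mathlib
namespace Pool.Agent.MP94u
open MeasureTheory

noncomputable def gNu : Measure ℝ :=
  (volume.restrict (Set.Ioi 0)).withDensity (fun r => ENNReal.ofReal (Real.exp (-r)))

theorem gNu_meas : Measurable (fun r : ℝ => ENNReal.ofReal (Real.exp (-r))) := by fun_prop

theorem gNu_lt : ∀ᵐ x ∂(volume.restrict (Set.Ioi (0:ℝ))), ENNReal.ofReal (Real.exp (-x)) < ⊤ :=
  Filter.Eventually.of_forall (fun _ => ENNReal.ofReal_lt_top)

theorem sqrt_pow_eq {x : ℝ} (hx : 0 < x) (n : ℕ) :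
    (Real.sqrt x) ^ n = x ^ (((n : ℝ) / 2 + 1) - 1) := by
  rw [Real.sqrt_eq_rpow, ← Real.rpow_natCast, ← Real.rpow_mul hx.le]
  congr 1; ring

theorem gNu_integrable (n : ℕ) : Integrable (fun r : ℝ => (Real.sqrt r) ^ n) gNu := by
  unfold gNu
  rw [integrable_withDensity_iff gNu_meas gNu_lt]
  have h := Real.GammaIntegral_convergent (s := (n : ℝ) / 2 + 1) (by positivity)
  refine (h.congr_fun ?_ measurableSet_Ioi)
  intro x hx
  have hx' : 0 < x := hx
  simp only
  rw [ENNReal.toReal_ofReal (Real.exp_pos _).le, sqrt_pow_eq hx', mul_comm]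

theorem gNu_integral (n : ℕ) : ∫ r : ℝ, (Real.sqrt r) ^ (n + n) ∂gNu = (n.factorial : ℝ) := by
  unfold gNu
  rw [integral_withDensity_eq_integral_toReal_smul gNu_meas gNu_lt]
  have h := Real.Gamma_eq_integral (s := (n : ℝ) + 1) (by positivity)
  rw [Real.Gamma_nat_eq_factorial] at h
  rw [h]
  refine setIntegral_congr_fun measurableSet_Ioi ?_
  intro x hx
  have hx' : 0 < x := hx
  simp only [smul_eq_mul]
  rw [ENNReal.toReal_ofReal (Real.exp_pos _).le, sqrt_pow_eq hx']
  congr 2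
  push_cast; ring

theorem gNu_univ : gNu Set.univ = 1 := by
  unfold gNu
  rw [withDensity_apply _ MeasurableSet.univ, Measure.restrict_univ]
  rw [← ofReal_integral_eq_lintegral_ofReal]
  · have := integral_exp_neg_Ioi_zero
    rw [this]; simp
  · exact integrableOn_exp_neg_Ioi 0
  · exact Filter.Eventually.of_forall (fun _ => (Real.exp_pos _).le)

instance : IsProbabilityMeasure gNu := ⟨gNu_univ⟩

local instance : Fact (0 < (1:ℝ)) := ⟨one_pos⟩

noncomputable def gMap (p : ℝ × AddCircle (1:ℝ)) : ℂ := (Real.sqrt p.1 : ℂ) * fourier 1 p.2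

theorem gMap_meas : Measurable gMap := by
  unfold gMap
  have h1 : Measurable (fun p : ℝ × AddCircle (1:ℝ) => (Real.sqrt p.1 : ℂ)) := by fun_prop
  have h2 : Measurable (fun p : ℝ × AddCircle (1:ℝ) => (fourier 1 p.2 : ℂ)) :=
    ((fourier (T := (1:ℝ)) 1).continuous.measurable).comp measurable_snd
  exact h1.mul h2

theorem gMap_pow (a b : ℕ) (p : ℝ × AddCircle (1:ℝ)) :
    gMap p ^ a * ((starRingEnd ℂ) (gMap p)) ^ b =
      (((Real.sqrt p.1) ^ (a + b) : ℝ) : ℂ) * fourier ((a : ℤ) - (b : ℤ)) p.2 := by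
  have h1 : ∀ (n : ℕ) (t : AddCircle (1:ℝ)), (fourier 1 t : ℂ) ^ n = fourier (n : ℤ) t := by
    intro n t
    induction n with
    | zero => simp
    | succ n ih => rw [pow_succ, ih]; push_cast; rw [fourier_add]
  have h2 : ∀ (n : ℕ) (t : AddCircle (1:ℝ)),
      ((starRingEnd ℂ) (fourier 1 t : ℂ)) ^ n = fourier (-(n : ℤ)) t := by
    intro n t
    rw [← map_pow, h1, ← fourier_neg]
  unfold gMap
  rw [map_mul, Complex.conj_ofReal, mul_pow, mul_pow, h1, h2, sub_eq_add_neg, fourier_add]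
  push_cast
  ring

theorem exists_gauss : ∃ μ : MeasureTheory.Measure ℂ, MeasureTheory.IsProbabilityMeasure μ ∧
    (∀ a b : ℕ, MeasureTheory.Integrable (fun z : ℂ => z ^ a * ((starRingEnd ℂ) z) ^ b) μ) ∧
    ∀ a b : ℕ, ∫ z : ℂ, z ^ a * ((starRingEnd ℂ) z) ^ b ∂μ = if a = b then (a.factorial : ℂ) else 0 := by
  set P : Measure (ℝ × AddCircle (1:ℝ)) := gNu.prod AddCircle.haarAddCircle with hP
  have hmeas : ∀ a b : ℕ, Continuous (fun z : ℂ => z ^ a * ((starRingEnd ℂ) z) ^ b) := by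
    intro a b
    exact (continuous_pow a).mul (Complex.continuous_conj.pow b)
  have hrad : ∀ n : ℕ, Integrable (fun r : ℝ => (((Real.sqrt r) ^ n : ℝ) : ℂ)) gNu :=
    fun n => (gNu_integrable n).ofReal
  have hang : ∀ k : ℤ, Integrable (fun t : AddCircle (1:ℝ) => (fourier k t : ℂ)) AddCircle.haarAddCircle :=
    fun k => (fourier k).continuous.integrable_of_hasCompactSupport (HasCompactSupport.of_compactSpace _)
  refine ⟨P.map gMap, Measure.isProbabilityMeasure_map gMap_meas.aemeasurable, ?_, ?_⟩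
  · intro a b
    rw [integrable_map_measure (hmeas a b).aestronglyMeasurable gMap_meas.aemeasurable]
    have : ((fun z : ℂ => z ^ a * ((starRingEnd ℂ) z) ^ b) ∘ gMap) =
        fun p : ℝ × AddCircle (1:ℝ) => (((Real.sqrt p.1) ^ (a + b) : ℝ) : ℂ) * fourier ((a : ℤ) - (b : ℤ)) p.2 := by
      funext p; exact gMap_pow a b p
    rw [this]
    exact (hrad (a + b)).mul_prod (hang _)
  · intro a b
    rw [integral_map gMap_meas.aemeasurable (hmeas a b).aestronglyMeasurable]
    simp_rw [gMap_pow]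
    rw [hP, integral_prod_mul (fun r : ℝ => (((Real.sqrt r) ^ (a + b) : ℝ) : ℂ))
      (fun t : AddCircle (1:ℝ) => (fourier ((a : ℤ) - (b : ℤ)) t : ℂ))]
    split_ifs with h
    · subst h
      have e : ∫ x : ℝ, (((Real.sqrt x) ^ (a + a) : ℝ) : ℂ) ∂gNu = ((a.factorial : ℝ) : ℂ) := by
        rw [← gNu_integral a]; exact integral_complex_ofReal
      rw [e]
      simp
    · have hne : (a : ℤ) - (b : ℤ) ≠ 0 := by omega
      have : ∫ t : AddCircle (1:ℝ), (fourier ((a : ℤ) - (b : ℤ)) t : ℂ) ∂AddCircle.haarAddCircle = 0 := by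
        have h1 := fourierCoeff_fourier (T := (1:ℝ)) ((a : ℤ) - (b : ℤ))
        have h2 := congrFun h1 0
        simp only [fourierCoeff, neg_zero, fourier_zero, one_smul] at h2
        rw [h2, Pi.single_eq_of_ne hne.symm]
      rw [this, mul_zero]

end Pool.Agent.MP94u
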