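import Mathlib

/-!
# MP_94c361_co: definitions for the upper bound of the second moment
-/

set_option autoImplicit false

open scoped BigOperators

namespace Pool.Agent.MP94u

/-- The number of positions with label `c`. -/
def cnt {n : ℕ} (T : Fin n → Bool × Bool) (c : Bool × Bool) : ℕ :=
  (Finset.univ.filter (fun u => T u = c)).card

/-- A Boolean as an integer. -/
def bi (a : Bool) : ℤ := if a then 1 else 0

/-- A Boolean as a sign. -/
def sb (a : Bool) : ℂ := if a then -1 else 1

/-- The local generating function of one vertex. -/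
noncomputable def loc (z w : Bool × Bool → ℂ) : ℂ :=
  ∑ T : Bool × Bool, ∑ S : Bool × Bool, ∑ T' : Bool × Bool, ∑ S' : Bool × Bool,
    if bi T.1 - bi S.1 = bi T'.1 - bi S'.1 ∧ bi T.2 - bi S.2 = bi T'.2 - bi S'.2 then
      sb T.1 * sb T.2 * sb T'.1 * sb T'.2 *
        (z T * (starRingEnd ℂ) (z S) * (w T' * (starRingEnd ℂ) (w S'))) else 0

end Pool.Agent.MP94u
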