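import Mathlib
import Pool.Agent.Lib.MP_94c361_co_U.Defs

/-!
# MP_94c361_co: the local factor is at most `3/2 |z|^2 |w|^2`
-/

set_option autoImplicit false

open scoped BigOperators

namespace Pool.Agent.MP94u

/-- The nine components of the local form. -/
noncomputable def comp (z : Bool × Bool → ℂ) : Fin 9 → ℂ :=
  ![z (false, false) * (starRingEnd ℂ) (z (false, false))
      + z (true, true) * (starRingEnd ℂ) (z (true, true))
      - z (false, true) * (starRingEnd ℂ) (z (false, true))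
      - z (true, false) * (starRingEnd ℂ) (z (true, false)),
    z (true, true) * (starRingEnd ℂ) (z (false, false)),
    z (false, false) * (starRingEnd ℂ) (z (true, true)),
    z (true, false) * (starRingEnd ℂ) (z (false, true)),
    z (false, true) * (starRingEnd ℂ) (z (true, false)),
    z (true, true) * (starRingEnd ℂ) (z (false, true))
      - z (true, false) * (starRingEnd ℂ) (z (false, false)),
    z (false, false) * (starRingEnd ℂ) (z (true, false))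
      - z (false, true) * (starRingEnd ℂ) (z (true, true)),
    z (true, true) * (starRingEnd ℂ) (z (true, false))
      - z (false, true) * (starRingEnd ℂ) (z (false, false)),
    z (false, false) * (starRingEnd ℂ) (z (false, true))
      - z (true, false) * (starRingEnd ℂ) (z (true, true))]

theorem loc_eq_sum (z w : Bool × Bool → ℂ) : loc z w = ∑ i, comp z i * comp w i := by
  unfold loc
  simp only [Fintype.sum_prod_type, Fintype.sum_bool]
  simp [bi, sb, Fin.sum_univ_succ, comp]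
  ring

theorem sum_comp_eq (z : Bool × Bool → ℂ) :
    ∑ i, ‖comp z i‖ ^ 2 =
      ‖z (false, false) * (starRingEnd ℂ) (z (false, false))
      + z (true, true) * (starRingEnd ℂ) (z (true, true))
      - z (false, true) * (starRingEnd ℂ) (z (false, true))
      - z (true, false) * (starRingEnd ℂ) (z (true, false))‖ ^ 2
      + ‖z (true, true) * (starRingEnd ℂ) (z (false, false))‖ ^ 2
      + ‖z (false, false) * (starRingEnd ℂ) (z (true, true))‖ ^ 2
      + ‖z (true, false) * (starRingEnd ℂ) (z (false, true))‖ ^ 2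
      + ‖z (false, true) * (starRingEnd ℂ) (z (true, false))‖ ^ 2
      + ‖z (true, true) * (starRingEnd ℂ) (z (false, true))
      - z (true, false) * (starRingEnd ℂ) (z (false, false))‖ ^ 2
      + ‖z (false, false) * (starRingEnd ℂ) (z (true, false))
      - z (false, true) * (starRingEnd ℂ) (z (true, true))‖ ^ 2
      + ‖z (true, true) * (starRingEnd ℂ) (z (true, false))
      - z (false, true) * (starRingEnd ℂ) (z (false, false))‖ ^ 2
      + ‖z (false, false) * (starRingEnd ℂ) (z (false, true))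
      - z (true, false) * (starRingEnd ℂ) (z (true, true))‖ ^ 2 := by
  rw [Fin.sum_univ_castSucc, Fin.sum_univ_eight]
  rfl

theorem sum_comp_sq_le (z : Bool × Bool → ℂ) :
    ∑ i, ‖comp z i‖ ^ 2 ≤ 3 / 2 * (∑ c, ‖z c‖ ^ 2) ^ 2 := by
  rw [sum_comp_eq]
  simp only [Fintype.sum_prod_type, Fintype.sum_bool]
  generalize z (false, false) = a
  generalize z (true, true) = b
  generalize z (false, true) = c
  generalize z (true, false) = d
  have hE : |(a * b * (starRingEnd ℂ) (c * d)).re| ≤ ‖a‖ * ‖b‖ * (‖c‖ * ‖d‖) := by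
    refine (Complex.abs_re_le_norm _).trans (le_of_eq ?_)
    rw [norm_mul, norm_mul, Complex.norm_conj, norm_mul]
  have hab : ‖a‖ * ‖b‖ ≤ (‖a‖ ^ 2 + ‖b‖ ^ 2) / 2 := by nlinarith [sq_nonneg (‖a‖ - ‖b‖)]
  have hcd : ‖c‖ * ‖d‖ ≤ (‖c‖ ^ 2 + ‖d‖ ^ 2) / 2 := by nlinarith [sq_nonneg (‖c‖ - ‖d‖)]
  have hmul : ‖a‖ * ‖b‖ * (‖c‖ * ‖d‖)
      ≤ (‖a‖ ^ 2 + ‖b‖ ^ 2) / 2 * ((‖c‖ ^ 2 + ‖d‖ ^ 2) / 2) :=
    mul_le_mul hab hcd (by positivity) (by positivity)
  have hab2 : (‖a‖ * ‖b‖) ^ 2 ≤ ((‖a‖ ^ 2 + ‖b‖ ^ 2) / 2) ^ 2 :=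
    pow_le_pow_left₀ (by positivity) hab 2
  have hcd2 : (‖c‖ * ‖d‖) ^ 2 ≤ ((‖c‖ ^ 2 + ‖d‖ ^ 2) / 2) ^ 2 :=
    pow_le_pow_left₀ (by positivity) hcd 2
  have hPR : 0 ≤ (‖a‖ ^ 2 + ‖b‖ ^ 2) * (‖c‖ ^ 2 + ‖d‖ ^ 2) := by positivity
  have hEm : -(a * b * (starRingEnd ℂ) (c * d)).re
      ≤ (‖a‖ ^ 2 + ‖b‖ ^ 2) / 2 * ((‖c‖ ^ 2 + ‖d‖ ^ 2) / 2) := by
    have := (abs_le.mp hE).1
    linarith
  clear hE hab hcd hmul
  simp only [Complex.sq_norm, Complex.normSq_apply, Complex.mul_re, Complex.mul_im,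
    Complex.conj_re, Complex.conj_im, Complex.sub_re, Complex.sub_im, Complex.add_re,
    Complex.add_im, map_mul, mul_pow] at hEm hab2 hcd2 hPR ⊢
  linarith [hEm, hab2, hcd2, hPR]

theorem loc_le (z w : Bool × Bool → ℂ) :
    ‖loc z w‖ ≤ 3 / 2 * (∑ c, ‖z c‖ ^ 2) * (∑ c, ‖w c‖ ^ 2) := by
  have hz := sum_comp_sq_le z
  have hw := sum_comp_sq_le w
  have hNz : 0 ≤ ∑ c, ‖z c‖ ^ 2 := Finset.sum_nonneg fun _ _ => sq_nonneg _
  have hNw : 0 ≤ ∑ c, ‖w c‖ ^ 2 := Finset.sum_nonneg fun _ _ => sq_nonneg _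
  have h1 : ‖loc z w‖ ≤ ∑ i, ‖comp z i‖ * ‖comp w i‖ := by
    rw [loc_eq_sum]
    refine (norm_sum_le _ _).trans (le_of_eq ?_)
    exact Finset.sum_congr rfl fun i _ => norm_mul _ _
  have h2 : (∑ i, ‖comp z i‖ * ‖comp w i‖) ^ 2
      ≤ (∑ i, ‖comp z i‖ ^ 2) * (∑ i, ‖comp w i‖ ^ 2) :=
    Finset.sum_mul_sq_le_sq_mul_sq _ _ _
  refine h1.trans ?_
  refine abs_le_of_sq_le_sq' ?_ (by positivity) |>.2
  refine h2.trans ?_
  have h3 : (∑ i, ‖comp z i‖ ^ 2) * (∑ i, ‖comp w i‖ ^ 2)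
      ≤ (3 / 2 * (∑ c, ‖z c‖ ^ 2) ^ 2) * (3 / 2 * (∑ c, ‖w c‖ ^ 2) ^ 2) := by
    refine mul_le_mul hz hw (Finset.sum_nonneg fun _ _ => sq_nonneg _) (by positivity)
  refine h3.trans (le_of_eq ?_)
  ring

end Pool.Agent.MP94u
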