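import Pool.Agent.Lib.MP_94c361_co_U.Defs

/-!
# MP_94c361_co: the number of permutations which carry one labelling to another
-/

set_option autoImplicit false

open scoped BigOperators

namespace Pool.Agent.MP94u

theorem cnt_eq_card {n : ℕ} (T : Fin n → Bool × Bool) (c : Bool × Bool) :
    cnt T c = Fintype.card {u // T u = c} := by
  rw [cnt, Fintype.card_subtype]

theorem cnt_of_perm {n : ℕ} {T S : Fin n → Bool × Bool} {σ : Equiv.Perm (Fin n)}
    (h : ∀ u, S (σ u) = T u) (c : Bool × Bool) : cnt T c = cnt S c := by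
  rw [cnt_eq_card, cnt_eq_card]
  refine Fintype.card_congr (σ.subtypeEquiv ?_)
  intro u
  rw [h u]

theorem exists_perm {n : ℕ} {T S : Fin n → Bool × Bool} (h : ∀ c, cnt T c = cnt S c) :
    ∃ σ : Equiv.Perm (Fin n), ∀ u, S (σ u) = T u := by
  have e : ∀ c, Fintype.card {u // T u = c} = Fintype.card {v // S v = c} := by
    intro c
    rw [← cnt_eq_card, ← cnt_eq_card, h c]
  refine ⟨(Equiv.sigmaFiberEquiv T).symm.trans
    ((Equiv.sigmaCongrRight fun c => Fintype.equivOfCardEq (e c)).trans
      (Equiv.sigmaFiberEquiv S)), ?_⟩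
  intro u
  exact (Fintype.equivOfCardEq (e (T u)) ⟨u, rfl⟩).2

theorem count_perm {n : ℕ} (T S : Fin n → Bool × Bool) :
    (Finset.univ.filter (fun σ : Equiv.Perm (Fin n) => ∀ u, S (σ u) = T u)).card =
      if (∀ c, cnt T c = cnt S c) then ∏ c, (cnt T c).factorial else 0 := by
  by_cases h : ∀ c, cnt T c = cnt S c
  · rw [if_pos h]
    obtain ⟨τ, hτ⟩ := exists_perm h
    have a1 : ∀ v, τ (τ⁻¹ v) = v := fun v => τ.apply_symm_apply v
    have a2 : ∀ u, τ⁻¹ (τ u) = u := fun u => τ.symm_apply_apply u
    have h1 : (Finset.univ.filter (fun σ : Equiv.Perm (Fin n) => ∀ u, S (σ u) = T u)).card =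
        Fintype.card {g : Equiv.Perm (Fin n) // S ∘ g = S} := by
      rw [Fintype.card_subtype]
      refine Finset.card_equiv (Equiv.mulRight τ⁻¹) ?_
      intro σ
      simp only [Finset.mem_filter, Finset.mem_univ, true_and, Equiv.coe_mulRight]
      constructor
      · intro hσ
        funext v
        have h2 := hσ (τ⁻¹ v)
        have h3 := hτ (τ⁻¹ v)
        simp only [Function.comp_apply, Equiv.Perm.mul_apply]
        rw [h2, ← h3, a1]
      · intro hσ u
        have h2 := congrFun hσ (τ u)
        simp only [Function.comp_apply, Equiv.Perm.mul_apply, a2] at h2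
        rw [h2, hτ]
    rw [h1, DomMulAct.stabilizer_card]
    refine Finset.prod_congr rfl ?_
    intro c _
    rw [← cnt_eq_card, h c]
  · rw [if_neg h, Finset.card_eq_zero, Finset.filter_eq_empty_iff]
    intro σ _ hσ
    exact h (cnt_of_perm hσ)

end Pool.Agent.MP94u
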