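import Pool.Agent.Lib.MP_94c361_co_U.Defs
import Pool.Agent.Lib.MP_94c361_co_H.Gram

/-!
# MP_94c361_co: the second moment over all pairs of permutations as a Gaussian integral
-/

set_option autoImplicit false

open scoped BigOperators
open Pool.Agent.MP94h MeasureTheory

namespace Pool.Agent.MP94u

/-- The local labels. -/
abbrev K4 : Type := (Bool × Bool) × (Bool × Bool) × (Bool × Bool) × (Bool × Bool)

/-- The local weight. -/
def cw (k : K4) : ℂ :=
  if bi k.1.1 - bi k.2.1.1 = bi k.2.2.1.1 - bi k.2.2.2.1 ∧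
      bi k.1.2 - bi k.2.1.2 = bi k.2.2.1.2 - bi k.2.2.2.2 then
    sb k.1.1 * sb k.1.2 * sb k.2.2.1.1 * sb k.2.2.1.2 else 0

theorem loc_eq (z w : Bool × Bool → ℂ) :
    loc z w = ∑ k : K4, cw k * ((z k.1 * (starRingEnd ℂ) (z k.2.1)) *
      (w k.2.2.1 * (starRingEnd ℂ) (w k.2.2.2))) := by
  have key : ∀ F : K4 → ℂ, ∑ k, F k = ∑ T : Bool × Bool, ∑ S : Bool × Bool, ∑ T' : Bool × Bool,
      ∑ S' : Bool × Bool, F (T, S, T', S') := fun F =>
    (Fintype.sum_prod_type F).trans (Finset.sum_congr rfl fun T _ =>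
      (Fintype.sum_prod_type (fun y => F (T, y))).trans (Finset.sum_congr rfl fun S _ =>
        (Fintype.sum_prod_type (fun y => F (T, S, y)))))
  rw [key]
  unfold loc cw
  refine Finset.sum_congr rfl fun T _ => Finset.sum_congr rfl fun S _ =>
    Finset.sum_congr rfl fun T' _ => Finset.sum_congr rfl fun S' _ => ?_
  simp only
  split_ifs
  · ring
  · simp

/-- The monomial. -/
noncomputable def mono {n : ℕ} (T S : Fin n → Bool × Bool) (z : Bool × Bool → ℂ) : ℂ :=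
  (∏ u, z (T u)) * ∏ u, (starRingEnd ℂ) (z (S u))

theorem loc_pow (n : ℕ) (z w : Bool × Bool → ℂ) :
    (loc z w) ^ n = ∑ κ : Fin n → K4, (∏ u, cw (κ u)) *
      (mono (fun u => (κ u).1) (fun u => (κ u).2.1) z *
        mono (fun u => (κ u).2.2.1) (fun u => (κ u).2.2.2) w) := by
  have h1 : (loc z w) ^ n = ∏ _u : Fin n, loc z w := by simp
  rw [h1, loc_eq, Finset.prod_univ_sum, Fintype.piFinset_univ]
  refine Finset.sum_congr rfl fun κ _ => ?_
  rw [Finset.prod_mul_distrib, Finset.prod_mul_distrib, Finset.prod_mul_distrib,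
    Finset.prod_mul_distrib]
  rfl

theorem prod_fib {n : ℕ} (T : Fin n → Bool × Bool) (f : Bool × Bool → ℂ) :
    ∏ u, f (T u) = ∏ c, f c ^ cnt T c := by
  rw [← Finset.prod_fiberwise (s := Finset.univ) (g := T)]
  refine Finset.prod_congr rfl fun c _ => ?_
  have h1 : ∀ u ∈ Finset.univ.filter (fun u => T u = c), f (T u) = f c := by
    intro u hu
    rw [(Finset.mem_filter.1 hu).2]
  rw [Finset.prod_congr rfl h1, Finset.prod_const]
  rfl

theorem mono_eq {n : ℕ} (T S : Fin n → Bool × Bool) (z : Bool × Bool → ℂ) :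
    mono T S z = ∏ c, (z c ^ cnt T c * ((starRingEnd ℂ) (z c)) ^ cnt S c) := by
  unfold mono
  rw [Finset.prod_mul_distrib, prod_fib T (fun c => z c),
    prod_fib S (fun c => (starRingEnd ℂ) (z c))]

section

variable {μ : Measure ℂ} [IsProbabilityMeasure μ]
  (hI : ∀ a b : ℕ, Integrable (fun z : ℂ => z ^ a * ((starRingEnd ℂ) z) ^ b) μ)
  (hM : ∀ a b : ℕ, ∫ z : ℂ, z ^ a * ((starRingEnd ℂ) z) ^ b ∂μ =
      if a = b then (a.factorial : ℂ) else 0)

include hI in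
theorem mono_int {n : ℕ} (T S : Fin n → Bool × Bool) :
    Integrable (mono T S) (Measure.pi (fun _ : Bool × Bool => μ)) := by
  have h1 : mono T S = fun z : Bool × Bool → ℂ =>
      ∏ c, (fun (x : ℂ) => x ^ cnt T c * ((starRingEnd ℂ) x) ^ cnt S c) (z c) := by
    funext z
    exact mono_eq T S z
  rw [h1]
  exact Integrable.fintype_prod (fun c => hI (cnt T c) (cnt S c))

include hM in
theorem mono_integral {n : ℕ} (hcp : ∀ T S : Fin n → Bool × Bool,
    (Finset.univ.filter (fun σ : Equiv.Perm (Fin n) => ∀ u, S (σ u) = T u)).card =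
      if (∀ c, cnt T c = cnt S c) then ∏ c, (cnt T c).factorial else 0)
    (T S : Fin n → Bool × Bool) :
    ∫ z, mono T S z ∂(Measure.pi (fun _ : Bool × Bool => μ)) =
      ((Finset.univ.filter (fun σ : Equiv.Perm (Fin n) => ∀ u, S (σ u) = T u)).card : ℂ) := by
  have h1 : ∫ z, mono T S z ∂(Measure.pi (fun _ : Bool × Bool => μ)) =
      ∫ z : Bool × Bool → ℂ, ∏ c, (fun (x : ℂ) => x ^ cnt T c *
        ((starRingEnd ℂ) x) ^ cnt S c) (z c) ∂(Measure.pi (fun _ : Bool × Bool => μ)) := by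
    refine integral_congr_ae (Filter.Eventually.of_forall fun z => ?_)
    exact mono_eq T S z
  rw [h1, integral_fintype_prod_eq_prod (fun c (x : ℂ) => x ^ cnt T c *
        ((starRingEnd ℂ) x) ^ cnt S c)]
  simp only [hM]
  rw [Fintype.prod_ite_zero, hcp]
  split_ifs <;> simp

theorem hc_sq (n : ℕ) (σ τ : Equiv.Perm (Fin n)) :
    (((hc σ τ) ^ 2 : ℤ) : ℂ) = ∑ κ : Fin n → K4,
      if (∀ u, (κ (σ u)).2.1 = (κ u).1) ∧ (∀ u, (κ (τ u)).2.2.2 = (κ u).2.2.1) then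
        ∏ u, cw (κ u) else 0 := by
  have h1 : (hc σ τ) ^ 2 = ∑ p : ((Fin n → Bool) × (Fin n → Bool)) ×
      ((Fin n → Bool) × (Fin n → Bool)),
      (if df σ p.1.1 = df τ p.1.2 then sg p.1.1 * sg p.1.2 else 0) *
        (if df σ p.2.1 = df τ p.2.2 then sg p.2.1 * sg p.2.2 else 0) := by
    have h0 : ((-1 : ℤ) ^ 2) ^ n = 1 := by norm_num
    rw [hc_eq, mul_pow, ← pow_mul, mul_comm n 2, pow_mul, h0, one_mul,
      ← Fintype.sum_prod_type', sq, Finset.sum_mul_sum, ← Fintype.sum_prod_type']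
  rw [h1, ← Finset.sum_filter]
  push_cast
  refine Finset.sum_bij' (fun p _ => fun u => ((p.1.1 u, p.2.1 u),
      (p.1.1 (σ.symm u), p.2.1 (σ.symm u)), (p.1.2 u, p.2.2 u),
      (p.1.2 (τ.symm u), p.2.2 (τ.symm u))))
    (fun κ _ => ((fun u => (κ u).1.1, fun u => (κ u).2.2.1.1),
      (fun u => (κ u).1.2, fun u => (κ u).2.2.1.2))) ?_ ?_ ?_ ?_ ?_
  · intro p _
    refine Finset.mem_filter.2 ⟨Finset.mem_univ _, fun u => ?_, fun u => ?_⟩
    · simp only [Equiv.symm_apply_apply]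
    · simp only [Equiv.symm_apply_apply]
  · intro κ _
    exact Finset.mem_univ _
  · intro p _
    rfl
  · intro κ hκ
    obtain ⟨h2, h3⟩ := (Finset.mem_filter.1 hκ).2
    funext u
    have h4 := h2 (σ.symm u)
    have h5 := h3 (τ.symm u)
    rw [Equiv.apply_symm_apply] at h4 h5
    refine Prod.ext rfl (Prod.ext ?_ (Prod.ext rfl ?_))
    · exact h4.symm
    · exact h5.symm
  · intro p _
    unfold cw
    rw [Fintype.prod_ite_zero]
    have h2 : ∀ x : Fin n → Bool, ((sg x : ℤ) : ℂ) = ∏ u, sb (x u) := by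
      intro x
      unfold sg sb
      push_cast
      rfl
    have h3 : (df σ p.1.1 = df τ p.1.2 ∧ df σ p.2.1 = df τ p.2.2) ↔
        ∀ u, (bi (p.1.1 u) - bi (p.1.1 (σ.symm u)) = bi (p.1.2 u) - bi (p.1.2 (τ.symm u)) ∧
          bi (p.2.1 u) - bi (p.2.1 (σ.symm u)) = bi (p.2.2 u) - bi (p.2.2 (τ.symm u))) := by
      constructor
      · rintro ⟨h4, h5⟩ u
        exact ⟨congrFun h4 u, congrFun h5 u⟩
      · intro h4
        exact ⟨funext fun u => (h4 u).1, funext fun u => (h4 u).2⟩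
    by_cases h4 : df σ p.1.1 = df τ p.1.2
    · by_cases h5 : df σ p.2.1 = df τ p.2.2
      · rw [if_pos h4, if_pos h5, if_pos (h3.1 ⟨h4, h5⟩), h2, h2, h2, h2,
          Finset.prod_mul_distrib, Finset.prod_mul_distrib, Finset.prod_mul_distrib]
        ring
      · rw [if_neg h5, mul_zero, if_neg (fun h => h5 (h3.2 h).2)]
    · rw [if_neg h4, zero_mul, if_neg (fun h => h4 (h3.2 h).1)]

theorem sum_hc_sq (n : ℕ) :
    ((∑ σ : Equiv.Perm (Fin n), ∑ τ : Equiv.Perm (Fin n), (hc σ τ) ^ 2 : ℤ) : ℂ) =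
      ∑ κ : Fin n → K4, (∏ u, cw (κ u)) *
        (((Finset.univ.filter (fun σ : Equiv.Perm (Fin n) =>
          ∀ u, (κ (σ u)).2.1 = (κ u).1)).card : ℂ) *
        ((Finset.univ.filter (fun τ : Equiv.Perm (Fin n) =>
          ∀ u, (κ (τ u)).2.2.2 = (κ u).2.2.1)).card : ℂ)) := by
  rw [Int.cast_sum]
  simp only [Int.cast_sum, hc_sq]
  have h1 : ∀ σ : Equiv.Perm (Fin n), (∑ τ : Equiv.Perm (Fin n), ∑ κ : Fin n → K4,
      if (∀ u, (κ (σ u)).2.1 = (κ u).1) ∧ (∀ u, (κ (τ u)).2.2.2 = (κ u).2.2.1) then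
        ∏ u, cw (κ u) else 0) = ∑ κ : Fin n → K4, ∑ τ : Equiv.Perm (Fin n),
      if (∀ u, (κ (σ u)).2.1 = (κ u).1) ∧ (∀ u, (κ (τ u)).2.2.2 = (κ u).2.2.1) then
        ∏ u, cw (κ u) else 0 := fun σ => Finset.sum_comm
  rw [Finset.sum_congr rfl (fun σ _ => h1 σ), Finset.sum_comm]
  refine Finset.sum_congr rfl fun κ _ => ?_
  have h2 : ∀ σ τ : Equiv.Perm (Fin n),
      (if (∀ u, (κ (σ u)).2.1 = (κ u).1) ∧ (∀ u, (κ (τ u)).2.2.2 = (κ u).2.2.1) then
        ∏ u, cw (κ u) else 0) = (∏ u, cw (κ u)) *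
        ((if (∀ u, (κ (σ u)).2.1 = (κ u).1) then (1 : ℂ) else 0) *
          (if (∀ u, (κ (τ u)).2.2.2 = (κ u).2.2.1) then (1 : ℂ) else 0)) := by
    intro σ τ
    by_cases h3 : ∀ u, (κ (σ u)).2.1 = (κ u).1
    · by_cases h4 : ∀ u, (κ (τ u)).2.2.2 = (κ u).2.2.1
      · rw [if_pos ⟨h3, h4⟩, if_pos h3, if_pos h4, mul_one, mul_one]
      · rw [if_neg (fun h => h4 h.2), if_neg h4, mul_zero, mul_zero]
    · rw [if_neg (fun h => h3 h.1), if_neg h3, zero_mul, mul_zero]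
  simp only [h2]
  simp only [← Finset.mul_sum]
  rw [← Finset.sum_mul, Finset.sum_boole, Finset.sum_boole]

end

end Pool.Agent.MP94u
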